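import Mathlib

namespace Pool.Agent.Results.MP_ca606e_nt.MahlerFarey

/-- A row of the list: the coefficient triple `(a, b, c)` of the equation
`a x ^ 2 + b x + c = 0` together with the root (a point of `[0, ∞]`) that it carries. -/
@[ext]
structure Row where
  /-- coefficient of the square -/
  a : ℤ
  /-- coefficient of `x` -/
  b : ℤ
  /-- constant coefficient -/
  c : ℤ
  /-- the root carried by the row -/
  root : EReal

/-- The first row: the triple `(0, 1, 0)` with root `0`. -/
noncomputable def zeroRow : Row := ⟨0, 1, 0, 0⟩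

/-- The last row: the triple `(0, 0, 1)` with root `∞`. -/
noncomputable def inftyRow : Row := ⟨0, 0, 1, ⊤⟩

/-- The rational entries of `L_n`: the triple `(0, q, -p)` with root `p / q`, where
`1 ≤ p, q ≤ n` and `p / q` is in lowest terms. -/
def IsRationalRow (n : ℕ) (r : Row) : Prop :=
  ∃ p q : ℕ, 1 ≤ p ∧ p ≤ n ∧ 1 ≤ q ∧ q ≤ n ∧ Nat.Coprime p q ∧
    r = ⟨0, (q : ℤ), -(p : ℤ), (((p : ℝ) / (q : ℝ) : ℝ) : EReal)⟩

/-- The quadratic irrational entries of `L_n`: the triple `(a, b, c)` with `a ≥ 1`,
`gcd (a, b, c) = 1`, `max (a, |b|, |c|) ≤ n`, carrying a positive irrational root. -/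
def IsQuadraticRow (n : ℕ) (r : Row) : Prop :=
  1 ≤ r.a ∧ r.a ≤ n ∧ |r.b| ≤ n ∧ |r.c| ≤ n ∧ Int.gcd r.a (Int.gcd r.b r.c) = 1 ∧
    ∃ θ : ℝ, Irrational θ ∧ 0 < θ ∧ (r.a : ℝ) * θ ^ 2 + (r.b : ℝ) * θ + (r.c : ℝ) = 0 ∧
      r.root = (θ : EReal)

open Classical in
/-- How often a row occurs in `L_n`: the two end rows once, every rational entry twice,
every quadratic irrational entry once, and nothing else. -/
noncomputable def multiplicity (n : ℕ) (r : Row) : ℕ :=
  if r = zeroRow ∨ r = inftyRow then 1
  else if IsRationalRow n r then 2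
  else if IsQuadraticRow n r then 1
  else 0

open Classical in
/-- `L` is the list `L_n`: it is ordered by increasing root and contains every row with the
right multiplicity (ties occur only between the two copies of a rational entry, so this
determines `L`). -/
def IsRowList (n : ℕ) (L : List Row) : Prop :=
  L.Pairwise (fun r s => r.root ≤ s.root) ∧ ∀ r : Row, L.count r = multiplicity n r

/-- The determinant of the `3 × 3` integer matrix whose rows are the triples of three rows. -/
def det3 (r s t : Row) : ℤ :=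
  Matrix.det !![r.a, r.b, r.c; s.a, s.b, s.c; t.a, t.b, t.c]

/-! ### Existence of the list -/

theorem rational_finite (n : ℕ) : {r | IsRationalRow n r}.Finite := by
  have h : {r | IsRationalRow n r} ⊆
      (fun x : ℕ × ℕ => (⟨0, (x.2 : ℤ), -(x.1 : ℤ), (((x.1 : ℝ) / (x.2 : ℝ) : ℝ) : EReal)⟩ : Row))
        '' ((Finset.range (n+1) ×ˢ Finset.range (n+1) : Finset (ℕ × ℕ)) : Set (ℕ × ℕ)) := by
    rintro r ⟨p, q, hp, hpn, hq, hqn, -, rfl⟩
    refine ⟨(p, q), ?_, rfl⟩
    simp only [Finset.coe_product, Finset.coe_range, Set.mem_prod, Set.mem_Iio]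
    omega
  exact (Set.Finite.image _ (Finset.finite_toSet _)).subset h

theorem quadratic_finite (n : ℕ) : {r | IsQuadraticRow n r}.Finite := by
  have h : {r | IsQuadraticRow n r} ⊆
      (fun x : ℤ × ℤ × ℤ × Bool => (⟨x.1, x.2.1, x.2.2.1,
        (((-(x.2.1 : ℝ) + (if x.2.2.2 then 1 else -1) *
          Real.sqrt ((x.2.1 : ℝ)^2 - 4 * x.1 * x.2.2.1)) / (2 * x.1) : ℝ) : EReal)⟩ : Row))
        '' ((Finset.Icc (-(n:ℤ)) n ×ˢ (Finset.Icc (-(n:ℤ)) n ×ˢ (Finset.Icc (-(n:ℤ)) n ×ˢ
          (Finset.univ : Finset Bool))) : Finset (ℤ × ℤ × ℤ × Bool)) : Set (ℤ × ℤ × ℤ × Bool)) := by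
    rintro ⟨a, b, c, ρ⟩ ⟨ha, han, hbn, hcn, -, θ, -, -, heq, hρ⟩
    simp only at ha han hbn hcn heq hρ
    subst hρ
    rw [abs_le] at hbn hcn
    have ha0 : (a : ℝ) ≠ 0 := by
      have : (1 : ℝ) ≤ a := by exact_mod_cast ha
      positivity
    set D : ℝ := (b:ℝ)^2 - 4 * a * c with hD
    have hsq : (2 * a * θ + b)^2 = D := by
      rw [hD]; linear_combination (4 * (a : ℝ)) * heq
    have hDnn : 0 ≤ D := by rw [← hsq]; positivity
    have hs : Real.sqrt D ^ 2 = D := Real.sq_sqrt hDnn
    have hcase : (2 * a * θ + b - Real.sqrt D) * (2 * a * θ + b + Real.sqrt D) = 0 := by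
      linear_combination hsq - hs
    rcases mul_eq_zero.mp hcase with h1 | h1
    · refine ⟨(a, b, c, true), ?_, ?_⟩
      · simp only [Finset.coe_product, Set.mem_prod, Finset.coe_Icc, Set.mem_Icc, Finset.coe_univ,
          Set.mem_univ, and_true]
        omega
      · simp only [if_true, one_mul]
        congr 2
        rw [← hD]
        field_simp
        linear_combination -h1
    · refine ⟨(a, b, c, false), ?_, ?_⟩
      · simp only [Finset.coe_product, Set.mem_prod, Finset.coe_Icc, Set.mem_Icc, Finset.coe_univ,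
          Set.mem_univ, and_true]
        omega
      · simp only [Bool.false_eq_true, if_false]
        congr 2
        rw [← hD]
        field_simp
        linear_combination -h1
  exact (Set.Finite.image _ (Finset.finite_toSet _)).subset h

theorem not_rational_zero (n : ℕ) : ¬ IsRationalRow n zeroRow := by
  rintro ⟨p, q, hp, -, -, -, -, h⟩
  have := congrArg Row.c h
  simp only [zeroRow] at this
  omega

theorem not_rational_infty (n : ℕ) : ¬ IsRationalRow n inftyRow := by
  rintro ⟨p, q, -, -, hq, -, -, h⟩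
  have := congrArg Row.b h
  simp only [inftyRow] at this
  omega

theorem not_quadratic_zero (n : ℕ) : ¬ IsQuadraticRow n zeroRow := by
  rintro ⟨h, -⟩
  simp only [zeroRow] at h
  omega

theorem not_quadratic_infty (n : ℕ) : ¬ IsQuadraticRow n inftyRow := by
  rintro ⟨h, -⟩
  simp only [inftyRow] at h
  omega

theorem not_rational_of_quadratic {n : ℕ} {r : Row} (h : IsQuadraticRow n r) :
    ¬ IsRationalRow n r := by
  rintro ⟨p, q, -, -, hq, -, -, rfl⟩
  have := h.1
  simp only at this
  omega

open Classical in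
/-- The list `L_n` exists for every `n`. -/
theorem exists_rowList (n : ℕ) : ∃ L : List Row, IsRowList n L := by
  let M : Multiset Row := {zeroRow, inftyRow} + 2 • (rational_finite n).toFinset.val +
    (quadratic_finite n).toFinset.val
  have hne : zeroRow ≠ inftyRow := by
    intro h
    have := congrArg Row.b h
    simp [zeroRow, inftyRow] at this
  have hM : ∀ r, M.count r = multiplicity n r := by
    intro r
    simp only [M, Multiset.count_add, Multiset.count_nsmul]
    have h2 : Multiset.count r (rational_finite n).toFinset.val =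
        if IsRationalRow n r then 1 else 0 := by
      rw [Multiset.count_eq_of_nodup (Finset.nodup _)]
      simp
    have h3 : Multiset.count r (quadratic_finite n).toFinset.val =
        if IsQuadraticRow n r then 1 else 0 := by
      rw [Multiset.count_eq_of_nodup (Finset.nodup _)]
      simp
    rw [h2, h3]
    unfold multiplicity
    by_cases h0 : r = zeroRow
    · subst h0
      have : Multiset.count zeroRow ({zeroRow, inftyRow} : Multiset Row) = 1 := by
        simp [hne]
      rw [this, if_neg (not_rational_zero n), if_neg (not_quadratic_zero n), if_pos (Or.inl rfl)]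
    by_cases h1 : r = inftyRow
    · subst h1
      have : Multiset.count inftyRow ({zeroRow, inftyRow} : Multiset Row) = 1 := by
        simp [hne.symm]
      rw [this, if_neg (not_rational_infty n), if_neg (not_quadratic_infty n),
        if_pos (Or.inr rfl)]
    have hz : Multiset.count r ({zeroRow, inftyRow} : Multiset Row) = 0 := by
      simp [h0, h1]
    rw [hz]
    by_cases hr : IsRationalRow n r
    · have hq : ¬ IsQuadraticRow n r := fun hq => not_rational_of_quadratic hq hr
      simp [h0, h1, hr, hq]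
    · simp [h0, h1, hr]
  let rel : Row → Row → Prop := fun r s => r.root ≤ s.root
  have : Std.Total rel := ⟨fun r s => le_total r.root s.root⟩
  have : IsTrans Row rel := ⟨fun r s t h1 h2 => le_trans h1 h2⟩
  refine ⟨M.toList.insertionSort rel, ?_, ?_⟩
  · exact List.pairwise_insertionSort rel M.toList
  · intro r
    rw [(List.perm_insertionSort rel M.toList).count_eq, ← hM r, ← Multiset.coe_count,
      Multiset.coe_toList]

theorem mult_cases {n : ℕ} {r : Row} (h : multiplicity n r ≠ 0) :
    r = zeroRow ∨ r = inftyRow ∨ IsRationalRow n r ∨ IsQuadraticRow n r := by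
  unfold multiplicity at h
  split_ifs at h with h0 h1 h2
  · rcases h0 with h0 | h0
    · exact Or.inl h0
    · exact Or.inr (Or.inl h0)
  · exact Or.inr (Or.inr (Or.inl h1))
  · exact Or.inr (Or.inr (Or.inr h2))
  · exact absurd rfl h

theorem dvd_aux {a b c a' b' c' : ℤ} (hg : Int.gcd a (Int.gcd b c) = 1)
    (h1 : a' * b = a * b') (h2 : a' * c = a * c') : a ∣ a' := by
  have e1 := Int.gcd_eq_gcd_ab a (Int.gcd b c)
  have e2 := Int.gcd_eq_gcd_ab b c
  rw [hg] at e1
  set g : ℤ := (Int.gcd b c : ℤ)
  generalize Int.gcdA a g = u at e1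
  generalize Int.gcdB a g = v at e1
  generalize Int.gcdA b c = w at e2
  generalize Int.gcdB b c = z at e2
  refine ⟨a' * u + b' * w * v + c' * z * v, ?_⟩
  push_cast at e1
  linear_combination a' * e1 + a' * v * e2 + w * v * h1 + z * v * h2

theorem eq_of_irrational {a b c a' b' c' : ℤ} {θ : ℝ} (hθ : Irrational θ)
    (ha : 1 ≤ a) (ha' : 1 ≤ a')
    (hg : Int.gcd a (Int.gcd b c) = 1) (hg' : Int.gcd a' (Int.gcd b' c') = 1)
    (h : (a : ℝ) * θ ^ 2 + b * θ + c = 0) (h' : (a' : ℝ) * θ ^ 2 + b' * θ + c' = 0) :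
    a = a' ∧ b = b' ∧ c = c' := by
  have h1 : ((a' * b - a * b' : ℤ) : ℝ) * θ + ((a' * c - a * c' : ℤ) : ℝ) = 0 := by
    push_cast
    linear_combination (a' : ℝ) * h - (a : ℝ) * h'
  have hb : a' * b - a * b' = 0 := by
    by_contra hne
    have hne' : ((a' * b - a * b' : ℤ) : ℝ) ≠ 0 := by exact_mod_cast hne
    apply hθ
    refine ⟨-((a' * c - a * c' : ℤ) : ℚ) / ((a' * b - a * b' : ℤ) : ℚ), ?_⟩
    rw [Rat.cast_div, Rat.cast_neg, Rat.cast_intCast, Rat.cast_intCast, div_eq_iff hne']
    linarith
  have hc : a' * c - a * c' = 0 := by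
    rw [hb] at h1
    have : ((a' * c - a * c' : ℤ) : ℝ) = 0 := by
      rw [Int.cast_zero, zero_mul, zero_add] at h1
      exact h1
    exact_mod_cast this
  have hb1 : a' * b = a * b' := by linarith
  have hc1 : a' * c = a * c' := by linarith
  have d1 : a ∣ a' := dvd_aux hg hb1 hc1
  have d2 : a' ∣ a := dvd_aux hg' hb1.symm hc1.symm
  have haa : a = a' := Int.dvd_antisymm (by linarith) (by linarith) d1 d2
  subst haa
  have ha0 : a ≠ 0 := by omega
  refine ⟨rfl, ?_, ?_⟩
  · exact mul_left_cancel₀ ha0 (by linarith)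
  · exact mul_left_cancel₀ ha0 (by linarith)

theorem root_cases {n : ℕ} {r : Row} (h : IsRationalRow n r ∨ IsQuadraticRow n r) :
    ∃ x : ℝ, 0 < x ∧ r.root = (x : EReal) := by
  rcases h with ⟨p, q, hp, -, hq, -, -, rfl⟩ | ⟨-, -, -, -, -, θ, -, h0, -, h⟩
  · refine ⟨(p : ℝ) / q, ?_, rfl⟩
    have : (0 : ℝ) < p := by exact_mod_cast hp
    have : (0 : ℝ) < q := by exact_mod_cast hq
    positivity
  · exact ⟨θ, h0, h⟩

/-- Two rows that occur in `L_n` and carry the same root are identical. -/
theorem eq_of_root_eq {n : ℕ} {r s : Row} (hr : multiplicity n r ≠ 0)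
    (hs : multiplicity n s ≠ 0) (h : r.root = s.root) : r = s := by
  have hz : ∀ t : Row, (IsRationalRow n t ∨ IsQuadraticRow n t) → zeroRow.root ≠ t.root := by
    intro t ht he
    obtain ⟨x, hx, hx'⟩ := root_cases ht
    rw [hx'] at he
    have h3 : ((0 : ℝ) : EReal) = (x : EReal) := he
    rw [EReal.coe_eq_coe_iff] at h3
    linarith
  have hi : ∀ t : Row, (IsRationalRow n t ∨ IsQuadraticRow n t) → inftyRow.root ≠ t.root := by
    intro t ht he
    obtain ⟨x, hx, hx'⟩ := root_cases ht
    rw [hx'] at he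
    exact EReal.coe_ne_top x he.symm
  have hzi : zeroRow.root ≠ inftyRow.root := by
    simp [zeroRow, inftyRow]
  rcases mult_cases hr with rfl | rfl | hr'
  · rcases mult_cases hs with rfl | rfl | hs'
    · rfl
    · exact absurd h hzi
    · exact absurd h (hz s hs')
  · rcases mult_cases hs with rfl | rfl | hs'
    · exact absurd h.symm hzi
    · rfl
    · exact absurd h (hi s hs')
  · rcases mult_cases hs with rfl | rfl | hs'
    · exact absurd h.symm (hz r hr')
    · exact absurd h.symm (hi r hr')
    · rcases hr' with ⟨p, q, hp, -, hq, -, hpq, rfl⟩ | ⟨ha, -, -, -, hg, θ, hθ, -, he, hρ⟩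
      · rcases hs' with ⟨p', q', hp', -, hq', -, hpq', rfl⟩ | ⟨-, -, -, -, -, η, hη, -, -, hη'⟩
        · simp only at h
          rw [EReal.coe_eq_coe_iff] at h
          have hq0 : (q : ℝ) ≠ 0 := by
            have : q ≠ 0 := by omega
            exact_mod_cast this
          have hq0' : (q' : ℝ) ≠ 0 := by
            have : q' ≠ 0 := by omega
            exact_mod_cast this
          rw [div_eq_div_iff hq0 hq0'] at h
          have h' : p * q' = p' * q := by exact_mod_cast h
          have e1 : q ∣ q' := by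
            have : q ∣ p * q' := ⟨p', by rw [h']; ring⟩
            exact (Nat.Coprime.dvd_of_dvd_mul_left hpq.symm this)
          have e2 : q' ∣ q := by
            have : q' ∣ p' * q := ⟨p, by rw [← h']; ring⟩
            exact (Nat.Coprime.dvd_of_dvd_mul_left hpq'.symm this)
          have e3 : q = q' := Nat.dvd_antisymm e1 e2
          subst e3
          have e4 : p = p' := Nat.eq_of_mul_eq_mul_right (by omega) h'
          rw [e4]
        · exfalso
          simp only at h
          rw [hη', EReal.coe_eq_coe_iff] at h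
          apply hη
          exact ⟨(p : ℚ) / q, by push_cast; exact h⟩
      · rcases hs' with ⟨p', q', hp', -, hq', -, hpq', rfl⟩ | ⟨ha', -, -, -, hg', η, hη, -, he', hη'⟩
        · exfalso
          simp only at h
          rw [hρ, EReal.coe_eq_coe_iff] at h
          apply hθ
          exact ⟨(p' : ℚ) / q', by push_cast; exact h.symm⟩
        · have h2 := h
          rw [hρ, hη', EReal.coe_eq_coe_iff] at h2
          subst h2
          obtain ⟨e1, e2, e3⟩ := eq_of_irrational hθ ha ha' hg hg' he he'
          exact Row.ext e1 e2 e3 h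

open Classical in
/-- The list `L_n` is unique. -/
theorem rowList_unique (n : ℕ) (L L' : List Row) (h : IsRowList n L) (h' : IsRowList n L') :
    L = L' := by
  have hp : L.Perm L' := by
    rw [List.perm_iff_count]
    intro r
    rw [h.2 r, h'.2 r]
  refine hp.eq_of_pairwise (le := fun r s : Row => r.root ≤ s.root) ?_ h.1 h'.1
  intro r s hr hs h1 h2
  refine eq_of_root_eq (n := n) ?_ ?_ (le_antisymm h1 h2)
  · rw [← h.2 r]; exact (List.count_pos_iff.mpr hr).ne'
  · rw [← h'.2 s]; exact (List.count_pos_iff.mpr hs).ne'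

/-! ### Consecutive rows -/

/-- Three entries of a sorted list with nothing else in between are consecutive. -/
theorem infix_of_sorted {L : List Row} (hs : L.Pairwise (fun r s => r.root ≤ s.root))
    {r₁ r₂ r₃ : Row} (h1 : r₁ ∈ L) (h2 : r₂ ∈ L) (h3 : r₃ ∈ L)
    (h12 : r₁.root < r₂.root) (h23 : r₂.root < r₃.root)
    (hbet : ∀ r ∈ L, r₁.root ≤ r.root → r.root ≤ r₃.root → r = r₁ ∨ r = r₂ ∨ r = r₃)
    (hcount : ∀ A B C : List Row, L ≠ A ++ r₂ :: B ++ r₂ :: C) :
    [r₁, r₂, r₃] <:+: L := by
  obtain ⟨A, B, rfl⟩ := List.append_of_mem h2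
  rw [List.pairwise_append, List.pairwise_cons] at hs
  obtain ⟨hA, ⟨hB1, hB⟩, hAB⟩ := hs
  have h1A : r₁ ∈ A := by
    rcases List.mem_append.mp h1 with h | h
    · exact h
    · rcases List.mem_cons.mp h with h | h
      · exact absurd (h ▸ h12) (lt_irrefl _)
      · exact absurd (lt_of_lt_of_le h12 (hB1 _ h)) (lt_irrefl _)
  have h3B : r₃ ∈ B := by
    rcases List.mem_append.mp h3 with h | h
    · exact absurd (lt_of_lt_of_le h23 (hAB _ h _ (List.mem_cons_self))) (lt_irrefl _)
    · rcases List.mem_cons.mp h with h | h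
      · exact absurd (h ▸ h23) (lt_irrefl _)
      · exact h
  have hAne : A ≠ [] := List.ne_nil_of_mem h1A
  obtain ⟨A', z, rfl⟩ : ∃ A' z, A = A' ++ [z] :=
    ⟨A.dropLast, A.getLast hAne, (List.dropLast_append_getLast hAne).symm⟩
  have hz1 : r₁.root ≤ z.root := by
    rw [List.pairwise_append] at hA
    rcases List.mem_append.mp h1A with h | h
    · exact hA.2.2 _ h z (by simp)
    · rw [List.mem_singleton.mp h]
  have hz2 : z.root ≤ r₂.root := hAB z (by simp) _ (List.mem_cons_self)
  have hz : z = r₁ := by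
    rcases hbet z (by simp) hz1 (hz2.trans h23.le) with h | h | h
    · exact h
    · exfalso
      subst h
      exact hcount A' [] B (by simp)
    · exfalso
      rw [h] at hz2
      exact absurd (lt_of_lt_of_le h23 hz2) (lt_irrefl _)
  obtain ⟨w, B', rfl⟩ : ∃ w B', B = w :: B' := by
    cases B with
    | nil => simp at h3B
    | cons w B' => exact ⟨w, B', rfl⟩
  have hw1 : r₂.root ≤ w.root := hB1 w (by simp)
  have hw2 : w.root ≤ r₃.root := by
    rw [List.pairwise_cons] at hB
    rcases List.mem_cons.mp h3B with h | h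
    · rw [h]
    · exact hB.1 _ h
  have hw : w = r₃ := by
    rcases hbet w (by simp) (h12.le.trans hw1) hw2 with h | h | h
    · exfalso
      rw [h] at hw1
      exact absurd (lt_of_lt_of_le h12 hw1) (lt_irrefl _)
    · exfalso
      subst h
      exact hcount (A' ++ [z]) [] B' (by simp)
    · exact h
  subst hz hw
  exact ⟨A', B', by simp⟩

/-! ### The three rows for `n = 7` -/

/-- `7 x ^ 2 - 6 x + 1` with root `(3 - √2) / 7`. -/
noncomputable def row1 : Row := ⟨7, -6, 1, (((3 - Real.sqrt 2) / 7 : ℝ) : EReal)⟩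
/-- `6 x ^ 2 + 3 x - 1` with root `(-3 + √33) / 12`. -/
noncomputable def row2 : Row := ⟨6, 3, -1, (((-3 + Real.sqrt 33) / 12 : ℝ) : EReal)⟩
/-- `7 x ^ 2 + 7 x - 2` with root `(-7 + √105) / 14`. -/
noncomputable def row3 : Row := ⟨7, 7, -2, (((-7 + Real.sqrt 105) / 14 : ℝ) : EReal)⟩

theorem sqrt2_bounds : 1.4142 < Real.sqrt 2 ∧ Real.sqrt 2 < 1.4143 := by
  constructor
  · rw [Real.lt_sqrt (by norm_num)]; norm_num
  · rw [Real.sqrt_lt' (by norm_num)]; norm_num

theorem sqrt33_bounds : 5.7445 < Real.sqrt 33 ∧ Real.sqrt 33 < 5.7446 := by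
  constructor
  · rw [Real.lt_sqrt (by norm_num)]; norm_num
  · rw [Real.sqrt_lt' (by norm_num)]; norm_num

theorem sqrt105_bounds : 10.2469 < Real.sqrt 105 ∧ Real.sqrt 105 < 10.247 := by
  constructor
  · rw [Real.lt_sqrt (by norm_num)]; norm_num
  · rw [Real.sqrt_lt' (by norm_num)]; norm_num

theorem row1_quadratic : IsQuadraticRow 7 row1 := by
  refine ⟨by norm_num [row1], by norm_num [row1], by norm_num [row1], by norm_num [row1],
    by norm_num [row1], (3 - Real.sqrt 2) / 7, ?_, ?_, ?_, rfl⟩
  · have h : Irrational (Real.sqrt 2) := irrational_sqrt_two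
    have h2 := (h.ratCast_sub (3 : ℚ)).div_ratCast (q := 7) (by norm_num)
    simpa using h2
  · have := sqrt2_bounds; linarith [this.2]
  · have h : Real.sqrt 2 ^ 2 = 2 := Real.sq_sqrt (by norm_num)
    simp only [row1]
    push_cast
    linear_combination (1 / 7 : ℝ) * h

theorem row2_quadratic : IsQuadraticRow 7 row2 := by
  refine ⟨by norm_num [row2], by norm_num [row2], by norm_num [row2], by norm_num [row2],
    by norm_num [row2], (-3 + Real.sqrt 33) / 12, ?_, ?_, ?_, rfl⟩
  · have h : Irrational (Real.sqrt ((33 : ℕ) : ℝ)) := by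
      rw [irrational_sqrt_natCast_iff]
      rintro ⟨k, hk⟩
      have : k < 6 := by nlinarith
      interval_cases k <;> omega
    have h2 := (h.ratCast_add (-3 : ℚ)).div_ratCast (q := 12) (by norm_num)
    simpa using h2
  · have := sqrt33_bounds; linarith [this.1]
  · have h : Real.sqrt 33 ^ 2 = 33 := Real.sq_sqrt (by norm_num)
    simp only [row2]
    push_cast
    linear_combination (1 / 24 : ℝ) * h

theorem row3_quadratic : IsQuadraticRow 7 row3 := by
  refine ⟨by norm_num [row3], by norm_num [row3], by norm_num [row3], by norm_num [row3],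
    by norm_num [row3], (-7 + Real.sqrt 105) / 14, ?_, ?_, ?_, rfl⟩
  · have h : Irrational (Real.sqrt ((105 : ℕ) : ℝ)) := by
      rw [irrational_sqrt_natCast_iff]
      rintro ⟨k, hk⟩
      have : k < 11 := by nlinarith
      interval_cases k <;> omega
    have h2 := (h.ratCast_add (-7 : ℚ)).div_ratCast (q := 14) (by norm_num)
    simpa using h2
  · have := sqrt105_bounds; linarith [this.1]
  · have h : Real.sqrt 105 ^ 2 = 105 := Real.sq_sqrt (by norm_num)
    simp only [row3]
    push_cast
    linear_combination (1 / 28 : ℝ) * h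

/-- Every triple of height at most `7`, other than four exceptions, has constant sign on
`[453/2000, 464/2000]`. -/
theorem box_check : ∀ a ∈ Finset.Icc (1 : ℤ) 7, ∀ b ∈ Finset.Icc (-7 : ℤ) 7,
    ∀ c ∈ Finset.Icc (-7 : ℤ) 7,
      (a = 7 ∧ b = -6 ∧ c = 1) ∨ (a = 6 ∧ b = 3 ∧ c = -1) ∨ (a = 7 ∧ b = 7 ∧ c = -2) ∨
      (a = 3 ∧ b = -5 ∧ c = 1) ∨
      (0 < a * 453 ^ 2 + min (b * 453) (b * 464) * 2000 + c * 2000 ^ 2) ∨
      (a * 464 ^ 2 + max (b * 453) (b * 464) * 2000 + c * 2000 ^ 2 < 0) := by
  decide +kernel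

theorem root_unique {a b c θ η : ℝ} (h1 : a * θ ^ 2 + b * θ + c = 0)
    (h2 : a * η ^ 2 + b * η + c = 0) (h3 : a * (θ + η) + b ≠ 0) : θ = η := by
  have : (θ - η) * (a * (θ + η) + b) = 0 := by linear_combination h1 - h2
  rcases mul_eq_zero.mp this with h | h
  · linarith
  · exact absurd h h3

theorem between {r : Row} (hr : multiplicity 7 r ≠ 0) (hlo : row1.root ≤ r.root)
    (hhi : r.root ≤ row3.root) : r = row1 ∨ r = row2 ∨ r = row3 := by
  have b2 := sqrt2_bounds
  have b33 := sqrt33_bounds
  have b105 := sqrt105_bounds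
  have hlo' : ((453 / 2000 : ℝ) : EReal) ≤ r.root := by
    refine le_trans ?_ hlo
    simp only [row1]
    rw [EReal.coe_le_coe_iff]
    linarith [b2.2]
  have hhi' : r.root ≤ ((464 / 2000 : ℝ) : EReal) := by
    refine le_trans hhi ?_
    simp only [row3]
    rw [EReal.coe_le_coe_iff]
    linarith [b105.2]
  unfold multiplicity at hr
  split_ifs at hr with h0 h1 h2
  · exfalso
    rcases h0 with rfl | rfl
    · simp only [zeroRow] at hlo'
      have h3 : ((453 / 2000 : ℝ) : EReal) ≤ ((0 : ℝ) : EReal) := hlo'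
      rw [EReal.coe_le_coe_iff] at h3
      norm_num at h3
    · simp only [inftyRow] at hhi'
      exact absurd (top_le_iff.mp hhi') (EReal.coe_ne_top _)
  · exfalso
    obtain ⟨p, q, hp, hp7, hq, hq7, -, rfl⟩ := h1
    simp only at hlo' hhi'
    rw [EReal.coe_le_coe_iff] at hlo' hhi'
    have hq0 : (0 : ℝ) < q := by exact_mod_cast hq
    rw [le_div_iff₀ hq0] at hlo'
    rw [div_le_iff₀ hq0] at hhi'
    have e1 : 453 * (q : ℝ) ≤ 2000 * p := by linarith
    have e2 : 2000 * (p : ℝ) ≤ 464 * q := by linarith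
    have e1' : 453 * q ≤ 2000 * p := by exact_mod_cast e1
    have e2' : 2000 * p ≤ 464 * q := by exact_mod_cast e2
    interval_cases q <;> omega
  · obtain ⟨a, b, c, ρ⟩ := r
    obtain ⟨ha1, ha2, hb, hc, -, θ, -, -, heq, hρ⟩ := h2
    simp only at ha1 ha2 hb hc heq hρ hlo' hhi'
    subst hρ
    rw [EReal.coe_le_coe_iff] at hlo' hhi'
    rw [abs_le] at hb hc
    have key := box_check a (Finset.mem_Icc.mpr ⟨ha1, by simpa using ha2⟩) b
      (Finset.mem_Icc.mpr ⟨by simpa using hb.1, by simpa using hb.2⟩) c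
      (Finset.mem_Icc.mpr ⟨by simpa using hc.1, by simpa using hc.2⟩)
    have ha0 : (0 : ℝ) < a := by exact_mod_cast (by omega : 0 < a)
    rcases key with ⟨rfl, rfl, rfl⟩ | ⟨rfl, rfl, rfl⟩ | ⟨rfl, rfl, rfl⟩ | ⟨rfl, rfl, rfl⟩ | h | h
    · left
      obtain ⟨-, -, -, -, -, η, -, -, h2, h3⟩ := row1_quadratic
      simp only [row1] at h2 h3
      rw [EReal.coe_eq_coe_iff] at h3
      have : θ = η := by
        refine root_unique heq h2 ?_
        rw [← h3]
        push_cast
        intro h
        linarith [b2.1]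
      rw [this, ← h3]
      rfl
    · right; left
      obtain ⟨-, -, -, -, -, η, -, -, h2, h3⟩ := row2_quadratic
      simp only [row2] at h2 h3
      rw [EReal.coe_eq_coe_iff] at h3
      have : θ = η := by
        refine root_unique heq h2 ?_
        rw [← h3]
        push_cast
        intro h
        linarith [b33.1]
      rw [this, ← h3]
      rfl
    · right; right
      obtain ⟨-, -, -, -, -, η, -, -, h2, h3⟩ := row3_quadratic
      simp only [row3] at h2 h3
      rw [EReal.coe_eq_coe_iff] at h3
      have : θ = η := by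
        refine root_unique heq h2 ?_
        rw [← h3]
        push_cast
        intro h
        linarith [b105.1]
      rw [this, ← h3]
      rfl
    · exfalso
      push_cast at heq
      nlinarith
    · exfalso
      have h' : (0 : ℝ) < a * 453 ^ 2 + min ((b : ℝ) * 453) (b * 464) * 2000 + c * 2000 ^ 2 := by
        exact_mod_cast h
      have hm : min ((b : ℝ) * 453) (b * 464) ≤ b * (2000 * θ) := by
        rcases le_total 0 (b : ℝ) with hb0 | hb0
        · exact (min_le_left _ _).trans (by nlinarith)
        · exact (min_le_right _ _).trans (by nlinarith)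
      have hsq : (a : ℝ) * 453 ^ 2 ≤ a * (2000 * θ) ^ 2 := by
        apply mul_le_mul_of_nonneg_left _ ha0.le
        nlinarith
      nlinarith
    · exfalso
      have h' : (a : ℝ) * 464 ^ 2 + max ((b : ℝ) * 453) (b * 464) * 2000 + c * 2000 ^ 2 < 0 := by
        exact_mod_cast h
      have hm : (b : ℝ) * (2000 * θ) ≤ max ((b : ℝ) * 453) (b * 464) := by
        rcases le_total 0 (b : ℝ) with hb0 | hb0
        · exact le_trans (by nlinarith) (le_max_right _ _)
        · exact le_trans (by nlinarith) (le_max_left _ _)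
      have hsq : (a : ℝ) * (2000 * θ) ^ 2 ≤ a * 464 ^ 2 := by
        apply mul_le_mul_of_nonneg_left _ ha0.le
        nlinarith
      nlinarith
  · exact absurd rfl hr

theorem mult_of_quadratic {n : ℕ} {r : Row} (h : IsQuadraticRow n r) : multiplicity n r = 1 := by
  unfold multiplicity
  rw [if_neg, if_neg (not_rational_of_quadratic h), if_pos h]
  rintro (rfl | rfl)
  · exact not_quadratic_zero n h
  · exact not_quadratic_infty n h

/-- **Main theorem.** For some `n` (namely `n = 7`) some three consecutive rows of the list `L_n`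
have a determinant of absolute value at least `2`. -/
theorem result : ∃ n : ℕ, 1 ≤ n ∧ ∃ L : List Row, IsRowList n L ∧
    ∃ r₁ r₂ r₃ : Row, [r₁, r₂, r₃] <:+: L ∧ 2 ≤ |det3 r₁ r₂ r₃| := by
  classical
  obtain ⟨L, hL⟩ := exists_rowList 7
  refine ⟨7, by norm_num, L, hL, row1, row2, row3, ?_, ?_⟩
  · have b2 := sqrt2_bounds
    have b33 := sqrt33_bounds
    have b105 := sqrt105_bounds
    have hmem : ∀ r, multiplicity 7 r ≠ 0 ↔ r ∈ L := by
      intro r
      rw [← hL.2 r, ← List.count_pos_iff, Nat.pos_iff_ne_zero]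
    apply infix_of_sorted hL.1
    · rw [← hmem, mult_of_quadratic row1_quadratic]; norm_num
    · rw [← hmem, mult_of_quadratic row2_quadratic]; norm_num
    · rw [← hmem, mult_of_quadratic row3_quadratic]; norm_num
    · simp only [row1, row2]
      rw [EReal.coe_lt_coe_iff]
      linarith [b2.1, b33.1]
    · simp only [row2, row3]
      rw [EReal.coe_lt_coe_iff]
      linarith [b33.2, b105.1]
    · intro r hr
      exact between ((hmem r).mpr hr)
    · intro A B C h
      have h1 := hL.2 row2
      rw [mult_of_quadratic row2_quadratic, h] at h1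
      simp [List.count_append] at h1
      omega
  · simp [det3, row1, row2, row3, Matrix.det_fin_three]

end Pool.Agent.Results.MP_ca606e_nt.MahlerFarey
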